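import Mathlib

namespace Pool.Agent.H945Z.OC

variable {V : Type*}

/-- edge multiset of the walk given by a list of vertices -/
def E : List V → Multiset (Sym2 V)
  | [] => 0
  | [_] => 0
  | a :: b :: l => {s(a, b)} + E (b :: l)

/-- edge multiset of the closed walk given by a list of vertices -/
def EC (l : List V) : Multiset (Sym2 V) := E (l ++ l.take 1)

@[simp] lemma E_nil : E ([] : List V) = 0 := rfl
@[simp] lemma E_single (a : V) : E [a] = 0 := rfl
lemma E_cons_cons (a b : V) (l : List V) : E (a :: b :: l) = {s(a, b)} + E (b :: l) := rfl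

lemma E_append (l1 : List V) (a : V) (l2 : List V) :
    E (l1 ++ a :: l2) = E (l1 ++ [a]) + E (a :: l2) := by
  induction l1 with
  | nil => simp
  | cons b l ih =>
    cases l with
    | nil => simp [E_cons_cons]
    | cons c l =>
      simp only [List.cons_append] at ih ⊢
      rw [E_cons_cons, E_cons_cons, ih, add_assoc]

lemma E_snoc (l : List V) (a b : V) : E (l ++ [a] ++ [b]) = E (l ++ [a]) + {s(a, b)} := by
  have := E_append l a [b]
  simp only [List.append_assoc, List.cons_append, List.nil_append]
  rw [this, E_cons_cons]; simp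

lemma E_reverse (l : List V) : E l.reverse = E l := by
  induction l with
  | nil => simp
  | cons a l ih =>
    cases l with
    | nil => simp
    | cons b l =>
      rw [E_cons_cons, ← ih]
      simp only [List.reverse_cons]
      rw [E_snoc, add_comm, Sym2.eq_swap]

lemma mem_E {z : Sym2 V} {l : List V} (h : z ∈ E l) :
    ∃ L1 a b L2, l = L1 ++ a :: b :: L2 ∧ z = s(a, b) := by
  induction l with
  | nil => simp at h
  | cons a l ih =>
    cases l with
    | nil => simp at h
    | cons b l =>
      rw [E_cons_cons, Multiset.mem_add, Multiset.mem_singleton] at h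
      rcases h with h | h
      · exact ⟨[], a, b, l, rfl, h⟩
      · obtain ⟨L1, u, v, L2, h1, h2⟩ := ih h
        exact ⟨a :: L1, u, v, L2, by simp [h1], h2⟩

lemma E_mid (L1 : List V) (a b : V) (L2 : List V) :
    E (L1 ++ a :: b :: L2) = E (L1 ++ [a]) + {s(a, b)} + E (b :: L2) := by
  rw [E_append, E_cons_cons, add_assoc]

lemma mem_E_mid (L1 : List V) (a b : V) (L2 : List V) : s(a, b) ∈ E (L1 ++ a :: b :: L2) := by
  rw [E_mid]; simp

lemma form_of_ends {l : List V} {a b : V} (h2 : 2 ≤ l.length) (ha : l.head? = some a)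
    (hb : l.getLast? = some b) : ∃ mid, l = a :: mid ++ [b] := by
  cases l with
  | nil => simp at h2
  | cons c r =>
    simp at ha
    subst ha
    rcases List.eq_nil_or_concat r with h | ⟨mid, d, h⟩
    · subst h; simp at h2
    · subst h
      refine ⟨mid, ?_⟩
      have : (c :: mid.concat d).getLast? = some d := by
        rw [List.concat_eq_append, ← List.cons_append, List.getLast?_append]; simp
      rw [this] at hb
      simp at hb
      simp [hb]

lemma EC_cons (h : V) (r : List V) : EC (h :: r) = E (h :: r ++ [h]) := by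
  simp [EC]

lemma EC_form (a : V) (mid : List V) (b : V) :
    EC (a :: mid ++ [b]) = E (a :: mid ++ [b]) + {s(a, b)} := by
  have : EC (a :: mid ++ [b]) = E ((a :: mid) ++ [b] ++ [a]) := by simp [EC]
  rw [this, E_snoc, Sym2.eq_swap]

lemma E_le_EC (c : List V) : E c ≤ EC c := by
  cases c with
  | nil => simp
  | cons a r =>
    rcases List.eq_nil_or_concat r with h | ⟨mid, d, h⟩
    · subst h; simp
    · subst h
      rw [List.concat_eq_append, ← List.cons_append, EC_form]
      exact Multiset.le_add_right _ _

lemma open_aux {c : List V} (h3 : 3 ≤ c.length) {z : Sym2 V} (hz : z ∈ EC c) :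
    ∃ u v mid, z = s(u, v) ∧ (v :: mid ++ [u]).Perm c ∧ E (v :: mid ++ [u]) + {z} = EC c := by
  cases c with
  | nil => simp at h3
  | cons h r =>
    rw [EC_cons] at hz ⊢
    obtain ⟨L1, u, v, L2, h1, h2⟩ := mem_E hz
    obtain ⟨M, hM⟩ : ∃ M, L1 ++ [u] = h :: M := by
      cases L1 with
      | nil => simp at h1; exact ⟨[], by simp [h1.1]⟩
      | cons x L => simp at h1; exact ⟨L ++ [u], by simp [h1.1]⟩
    obtain ⟨N, hN⟩ : ∃ N, v :: L2 = N ++ [h] := by
      rcases List.eq_nil_or_concat L2 with h0 | ⟨N, d, h0⟩
      · subst h0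
        have : (h :: r) ++ [h] = (L1 ++ [u]) ++ [v] := by simpa using h1
        have := List.append_inj_right' this rfl
        simp at this
        exact ⟨[], by simp [this]⟩
      · subst h0
        have : (h :: r) ++ [h] = (L1 ++ u :: v :: N) ++ [d] := by simpa using h1
        have := List.append_inj_right' this rfl
        simp at this
        exact ⟨v :: N, by simp [this]⟩
    have hc : h :: r = h :: M ++ N := by
      have : (h :: r) ++ [h] = (h :: M ++ N) ++ [h] := by
        rw [h1, List.append_assoc, ← hN, ← hM]; simp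
      exact List.append_inj_left' this rfl
    have hperm : (N ++ h :: M).Perm (h :: r) := by
      rw [hc]; exact List.perm_append_comm
    have hlen : 2 ≤ (N ++ h :: M).length := by rw [hperm.length_eq]; omega
    have ha : (N ++ h :: M).head? = some v := by
      have : N ++ h :: M = v :: (L2 ++ M) := by
        rw [← List.cons_append, hN]; simp
      rw [this]; rfl
    have hb : (N ++ h :: M).getLast? = some u := by
      rw [← hM, ← List.append_assoc, List.getLast?_append]; simp
    obtain ⟨mid, hmid⟩ := form_of_ends hlen ha hb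
    refine ⟨u, v, mid, h2, hmid ▸ hperm, ?_⟩
    rw [← hmid, h1, E_mid, E_append, ← hN, ← hM, h2]
    abel

/-- open a cycle at one of its edges -/
lemma open_edge {c : List V} (h3 : 3 ≤ c.length) {a b : V} (hz : s(a, b) ∈ EC c) :
    ∃ mid, (a :: mid ++ [b]).Perm c ∧ E (a :: mid ++ [b]) + {s(a, b)} = EC c := by
  obtain ⟨u, v, mid, h1, h2, h4⟩ := open_aux h3 hz
  rcases Sym2.eq_iff.mp h1 with ⟨rfl, rfl⟩ | ⟨rfl, rfl⟩
  · refine ⟨mid.reverse, ?_, ?_⟩
    · have : a :: mid.reverse ++ [b] = (b :: mid ++ [a]).reverse := by simp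
      rw [this]; exact (List.reverse_perm _).trans h2
    · have : a :: mid.reverse ++ [b] = (b :: mid ++ [a]).reverse := by simp
      rw [this, E_reverse]; exact h4
  · exact ⟨mid, h2, h4⟩

lemma edge_facts {c : List V} (hn : c.Nodup) (h3 : 3 ≤ c.length) {a b : V}
    (hz : s(a, b) ∈ EC c) : a ∈ c ∧ b ∈ c ∧ a ≠ b := by
  obtain ⟨mid, h1, -⟩ := open_edge h3 hz
  refine ⟨h1.subset (by simp), h1.subset (by simp), ?_⟩
  have := h1.nodup_iff.mpr hn
  simp [List.nodup_cons] at this
  exact this.1.2

lemma exists_next [DecidableEq V] (l : List V) (t : V) (hl : l.Nodup)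
    (ht : (l ++ [t]).tail.Nodup) :
    ∃ σ : V → V, Set.InjOn σ {v | v ∈ l} ∧
      ∀ v ∈ l, s(v, σ v) ∈ E (l ++ [t]) ∧ σ v ∈ (l ++ [t]).tail := by
  induction l with
  | nil => exact ⟨id, by simp, by simp⟩
  | cons a l ih =>
    simp only [List.cons_append, List.tail_cons] at ht ⊢
    obtain ⟨σ, h1, h2⟩ := ih (List.nodup_cons.mp hl).2 (ht.sublist (List.tail_sublist _))
    have hal : a ∉ l := (List.nodup_cons.mp hl).1
    obtain ⟨b, r, hb⟩ : ∃ b r, l ++ [t] = b :: r := by
      cases l with
      | nil => exact ⟨t, [], rfl⟩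
      | cons x y => exact ⟨x, y ++ [t], rfl⟩
    rw [hb] at h2 ht ⊢
    simp only [List.tail_cons] at h2
    have hbr : b ∉ r := (List.nodup_cons.mp ht).1
    have hup : ∀ v ∈ l, Function.update σ a b v = σ v := fun v hv =>
      Function.update_of_ne (fun (h : v = a) => hal (h ▸ hv)) _ _
    refine ⟨Function.update σ a b, ?_, ?_⟩
    · intro x hx y hy hxy
      simp only [Set.mem_ofPred_eq, List.mem_cons] at hx hy
      rcases hx with rfl | hx <;> rcases hy with rfl | hy
      · rfl
      · rw [Function.update_self, hup y hy] at hxy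
        exact absurd (hxy ▸ (h2 y hy).2) hbr
      · rw [Function.update_self, hup x hx] at hxy
        exact absurd (hxy ▸ (h2 x hx).2) hbr
      · rw [hup x hx, hup y hy] at hxy
        exact h1 hx hy hxy
    · intro v hv
      rcases List.mem_cons.mp hv with rfl | hv
      · rw [Function.update_self, E_cons_cons]; simp
      · rw [hup v hv, E_cons_cons]
        exact ⟨Multiset.mem_add.mpr (Or.inr (h2 v hv).1), List.mem_cons_of_mem _ (h2 v hv).2⟩

/-- an injective successor map along a cycle -/
lemma exists_succ [DecidableEq V] {c : List V} (hn : c.Nodup) :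
    ∃ σ : V → V, Set.InjOn σ {v | v ∈ c} ∧ ∀ v ∈ c, s(v, σ v) ∈ EC c := by
  cases c with
  | nil => exact ⟨id, by simp, by simp⟩
  | cons h r =>
    obtain ⟨σ, h1, h2⟩ := exists_next (h :: r) h hn (by
      simp only [List.cons_append, List.tail_cons]
      exact (List.perm_append_singleton h r).nodup_iff.mpr hn)
    exact ⟨σ, h1, fun v hv => by rw [EC_cons]; exact (h2 v hv).1⟩

/-- two consecutive entries avoiding two small sets -/
lemma exists_consec [DecidableEq V] (l : List V) (hl : l.Nodup) (A B : Finset V)
    (h : A.card + B.card + 1 < l.length) :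
    ∃ L1 z z' L2, l = L1 ++ z :: z' :: L2 ∧ z ∉ A ∧ z' ∉ B := by
  induction l generalizing A B with
  | nil => simp at h
  | cons a l ih =>
    cases l with
    | nil => simp at h
    | cons b r =>
      have hn := List.nodup_cons.mp hl
      by_cases ha : a ∈ A
      · have hc := Finset.card_erase_add_one ha
        obtain ⟨L1, z, z', L2, h1, h2, h3⟩ := ih hn.2 (A.erase a) B (by
          simp only [List.length_cons] at h ⊢; omega)
        refine ⟨a :: L1, z, z', L2, by simp [h1], ?_, h3⟩
        intro hz
        have : z ≠ a := by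
          rintro rfl
          exact hn.1 (by rw [h1]; simp)
        exact h2 (Finset.mem_erase.mpr ⟨this, hz⟩)
      · by_cases hb : b ∈ B
        · have hc := Finset.card_erase_add_one hb
          obtain ⟨L1, z, z', L2, h1, h2, h3⟩ := ih hn.2 A (B.erase b) (by
            simp only [List.length_cons] at h ⊢; omega)
          refine ⟨a :: L1, z, z', L2, by simp [h1], h2, ?_⟩
          intro hz
          have : z' ≠ b := by
            rintro rfl
            have hn2 := (List.nodup_cons.mp hn.2).1
            apply hn2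
            cases L1 with
            | nil => simp at h1; rw [h1.2]; simp
            | cons x y => simp at h1; rw [h1.2]; simp
          exact h3 (Finset.mem_erase.mpr ⟨this, hz⟩)
        · exact ⟨[], a, b, r, rfl, ha, hb⟩

/-- two neighbours of a vertex on a cycle -/
lemma two_nbrs {c : List V} [DecidableEq V] (hn : c.Nodup) (h3 : 3 ≤ c.length) {a : V}
    (ha : a ∈ c) : ∃ w w', w ≠ w' ∧ s(a, w) ∈ EC c ∧ s(a, w') ∈ EC c := by
  obtain ⟨σ, -, h2⟩ := exists_succ hn
  obtain ⟨mid, h4, h5⟩ := open_edge h3 (h2 a ha)
  have hnd := h4.nodup_iff.mpr hn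
  have hlen := h4.length_eq
  cases mid with
  | nil => simp at hlen; omega
  | cons x m =>
    refine ⟨σ a, x, ?_, h2 a ha, ?_⟩
    · rintro h
      simp [List.nodup_cons, h] at hnd
    · rw [← h5]
      simp only [List.cons_append]
      rw [E_cons_cons]; simp

lemma mem_edge_of_mem {l : List V} (h2 : 2 ≤ l.length) {v : V} (hv : v ∈ l) :
    ∃ z ∈ E l, v ∈ z := by
  obtain ⟨L1, L2, rfl⟩ := List.append_of_mem hv
  cases L2 with
  | cons b L2 => exact ⟨s(v, b), mem_E_mid _ _ _ _, by simp⟩
  | nil =>
    rcases List.eq_nil_or_concat L1 with h | ⟨M, d, h⟩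
    · subst h; simp at h2
    · subst h
      refine ⟨s(d, v), ?_, by simp⟩
      have := mem_E_mid M d v []
      simpa using this

lemma E_map {W : Type*} (f : V → W) (l : List V) : E (l.map f) = (E l).map (Sym2.map f) := by
  induction l with
  | nil => simp
  | cons a l ih =>
    cases l with
    | nil => simp
    | cons b l =>
      simp only [List.map_cons] at ih ⊢
      rw [E_cons_cons, E_cons_cons, ih]; simp

lemma EC_map {W : Type*} (f : V → W) (l : List V) : EC (l.map f) = (EC l).map (Sym2.map f) := by
  rw [EC, EC, ← E_map]; simp [List.map_take]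

end Pool.Agent.H945Z.OC
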