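import Pool.Agent.H945Z.OC.Basic

namespace Pool.Agent.H945Z.OC

variable {V : Type*} [DecidableEq V]

def Par (A B : Multiset (Sym2 V)) : Prop := ∀ z, A.count z % 2 = B.count z % 2

def OC (T : Multiset (Sym2 V)) (k : ℕ) : Prop :=
  ∃ Qs : List (List V), Qs.length ≤ k ∧ (∀ Q ∈ Qs, Q.Nodup) ∧ Par (Qs.map E).sum T

def Cyc (c : List V) : Prop := c.Nodup ∧ 3 ≤ c.length

lemma OC_zero : OC (0 : Multiset (Sym2 V)) 0 := ⟨[], by simp, by simp, fun _ => by simp⟩

lemma OC_path {l : List V} (h : l.Nodup) : OC (E l) 1 :=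
  ⟨[l], by simp, by simpa using h, fun _ => by simp⟩

lemma OC.add {A B : Multiset (Sym2 V)} {k l : ℕ} (h1 : OC A k) (h2 : OC B l) :
    OC (A + B) (k + l) := by
  obtain ⟨P, p1, p2, p3⟩ := h1
  obtain ⟨Q, q1, q2, q3⟩ := h2
  refine ⟨P ++ Q, by simp; omega, ?_, fun z => ?_⟩
  · intro R hR
    rcases List.mem_append.mp hR with h | h
    exacts [p2 R h, q2 R h]
  · have := p3 z
    have := q3 z
    simp only [List.map_append, List.sum_append, Multiset.count_add]
    omega

lemma OC.mono {A : Multiset (Sym2 V)} {k l : ℕ} (h1 : OC A k) (h : k ≤ l) : OC A l := by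
  obtain ⟨P, p1, p2, p3⟩ := h1
  exact ⟨P, p1.trans h, p2, p3⟩

lemma OC.congr {A B : Multiset (Sym2 V)} {k : ℕ} (h1 : OC A k) (h : Par A B) : OC B k := by
  obtain ⟨P, p1, p2, p3⟩ := h1
  exact ⟨P, p1, p2, fun z => (p3 z).trans (h z)⟩

lemma OC_sum {ι : Type*} (s : Finset ι) (f : ι → Multiset (Sym2 V)) (k : ι → ℕ)
    (h : ∀ i ∈ s, OC (f i) (k i)) : OC (∑ i ∈ s, f i) (∑ i ∈ s, k i) := by
  classical
  induction s using Finset.induction_on with
  | empty => simpa using OC_zero
  | insert a s ha ih =>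
    rw [Finset.sum_insert ha, Finset.sum_insert ha]
    exact (h a (by simp)).add (ih fun i hi => h i (by simp [hi]))

omit [DecidableEq V] in
lemma nodup_snoc {l : List V} {x : V} (h : l.Nodup) (hx : x ∉ l) : (l ++ [x]).Nodup :=
  (List.perm_append_singleton x l).nodup_iff.mpr (List.nodup_cons.mpr ⟨hx, h⟩)

lemma fix1 {c c' : List V} (hc : Cyc c) (hc' : Cyc c') {a w w' : V} (h1 : s(a, w) ∈ EC c)
    (h2 : w ∉ c') (h3 : s(a, w') ∈ EC c') (h4 : w' ∉ c) : OC (EC c + EC c') 2 := by
  rw [Sym2.eq_swap] at h1 h3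
  obtain ⟨m, p1, e1⟩ := open_edge hc.2 h1
  obtain ⟨m', p2, e2⟩ := open_edge hc'.2 h3
  have n1 : (w :: m ++ [a] ++ [w']).Nodup :=
    nodup_snoc (p1.nodup_iff.mpr hc.1) (fun h => h4 (p1.subset h))
  have n2 : (w' :: m' ++ [a] ++ [w]).Nodup :=
    nodup_snoc (p2.nodup_iff.mpr hc'.1) (fun h => h2 (p2.subset h))
  refine ((OC_path n1).add (OC_path n2)).congr fun z => ?_
  rw [E_snoc, E_snoc, ← e1, ← e2, Sym2.eq_swap (a := w), Sym2.eq_swap (a := w')]
  simp only [Multiset.count_add]
  omega

lemma fix2 {c c' : List V} (hc : Cyc c) (hc' : Cyc c') {x y x' y' : V} (h1 : s(x, y) ∈ EC c)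
    (h2 : x ∉ c') (h2' : y ∉ c') (h3 : s(x', y') ∈ EC c') (h4 : x' ∉ c) (h4' : y' ∉ c) :
    OC (EC c + EC c') 2 := by
  obtain ⟨m, p1, e1⟩ := open_edge hc.2 h1
  obtain ⟨m', p2, e2⟩ := open_edge hc'.2 h3
  have f1 := edge_facts hc.1 hc.2 h1
  have f2 := edge_facts hc'.1 hc'.2 h3
  have n1 : (x :: m ++ [y] ++ [y'] ++ [x']).Nodup := by
    refine nodup_snoc (nodup_snoc (p1.nodup_iff.mpr hc.1) (fun h => h4' (p1.subset h))) ?_
    intro h
    rcases List.mem_append.mp h with h | h
    · exact h4 (p1.subset h)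
    · exact f2.2.2 (by simpa using h)
  have n2 : (x' :: m' ++ [y'] ++ [y] ++ [x]).Nodup := by
    refine nodup_snoc (nodup_snoc (p2.nodup_iff.mpr hc'.1) (fun h => h2' (p2.subset h))) ?_
    intro h
    rcases List.mem_append.mp h with h | h
    · exact h2 (p2.subset h)
    · exact f1.2.2 (by simpa using h)
  refine ((OC_path n1).add (OC_path n2)).congr fun z => ?_
  rw [E_snoc, E_snoc, E_snoc, E_snoc, ← e1, ← e2, Sym2.eq_swap (a := y') (b := x'),
    Sym2.eq_swap (a := y') (b := y), Sym2.eq_swap (a := y) (b := x)]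
  simp only [Multiset.count_add]
  omega

lemma card_bad (D : List V) (σ : V → V) (hσ : Set.InjOn σ {v | v ∈ D}) (U : Finset V) :
    (U ∪ D.toFinset.filter (fun v => σ v ∈ U)).card ≤ 2 * U.card := by
  have h1 := Finset.card_union_le U (D.toFinset.filter (fun v => σ v ∈ U))
  have h2 : (D.toFinset.filter (fun v => σ v ∈ U)).card ≤ U.card := by
    apply Finset.card_le_card_of_injOn σ
    · intro v hv
      simp only [Finset.coe_filter, Set.mem_ofPred_eq] at hv
      exact hv.2
    · intro u hu v hv h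
      simp only [Finset.coe_filter, Set.mem_ofPred_eq, List.mem_toFinset] at hu hv
      exact hσ hu.1 hv.1 h
  omega

lemma step {C : List V} (hC : Cyc C) (q : V) (Q : List V) (hQ : (q :: Q).Nodup)
    (hg : q ∈ C → ∃ y, s(q, y) ∈ EC C ∧ y ∉ q :: Q) (hlen : 3 * Q.length + 6 < C.length)
    (D : List V) (σ : V → V) (hσ : Set.InjOn σ {v | v ∈ D})
    (hD : ∀ v ∈ D, σ v ≠ v ∧ s(v, σ v) ∉ EC C) :
    ∃ q' Q' P, (q' :: Q').Nodup ∧ Q'.length ≤ Q.length + 3 ∧ (q' ∈ D → σ q' ∉ q' :: Q') ∧
      P.Nodup ∧ Par (E P + E (q :: Q)) (EC C + E (q' :: Q')) := by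
  have hU : (q :: Q).toFinset.card ≤ Q.length + 1 := List.toFinset_card_le _
  by_cases hq : q ∈ C
  · obtain ⟨y, hy, hyQ⟩ := hg hq
    obtain ⟨m, p1, e1⟩ := open_edge hC.2 hy
    have hl := p1.nodup_iff.mpr hC.1
    have hU' : (y :: q :: Q).toFinset.card ≤ Q.length + 2 := List.toFinset_card_le _
    have hB := card_bad D σ hσ (y :: q :: Q).toFinset
    obtain ⟨L1, z, z', L2, hL, hz, hz'⟩ := exists_consec _ hl (q :: Q).toFinset _
      (by rw [p1.length_eq]; exact lt_of_le_of_lt (by omega) hlen :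
        (q :: Q).toFinset.card + ((y :: q :: Q).toFinset ∪
          D.toFinset.filter (fun v => σ v ∈ (y :: q :: Q).toFinset)).card + 1 <
          (q :: m ++ [y]).length)
    rw [List.mem_toFinset] at hz
    rw [Finset.mem_union, not_or, List.mem_toFinset] at hz'
    have hlast : (z' :: L2).reverse.head? = some y := by
      rw [List.head?_reverse]
      have : (q :: m ++ [y]).getLast? = some y := by rw [List.getLast?_append]; simp
      rw [hL, show L1 ++ z :: z' :: L2 = (L1 ++ [z]) ++ z' :: L2 by simp,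
        List.getLast?_append_of_ne_nil _ (by simp)] at this
      exact this
    obtain ⟨R, hR⟩ : ∃ R, (z' :: L2).reverse = y :: R := by
      cases h : (z' :: L2).reverse with
      | nil => simp at h
      | cons a R => rw [h] at hlast; simp at hlast; exact ⟨R, by rw [hlast]⟩
    have hzn : z ∉ z' :: L2 := by
      rw [hL] at hl
      exact (List.nodup_cons.mp (hl.sublist (List.sublist_append_right _ _))).1
    have hyn : y ∈ z' :: L2 := by rw [← List.mem_reverse, hR]; simp
    have hzz : s(z, z') ∈ EC C := by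
      rw [← e1, hL]; exact Multiset.mem_add.mpr (Or.inl (mem_E_mid _ _ _ _))
    refine ⟨z', z :: y :: q :: Q, L1 ++ z :: y :: R, ?_, by simp, ?_, ?_, ?_⟩
    · refine List.nodup_cons.mpr ⟨?_, List.nodup_cons.mpr ⟨?_, List.nodup_cons.mpr ⟨hyQ, hQ⟩⟩⟩
      · intro h
        rcases List.mem_cons.mp h with h | h
        · exact hzn (by simp [h])
        · exact hz'.1 h
      · intro h
        rcases List.mem_cons.mp h with h | h
        · exact hzn (h ▸ hyn)
        · exact hz h
    · intro hd h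
      rcases List.mem_cons.mp h with h | h
      · exact (hD z' hd).1 h
      rcases List.mem_cons.mp h with h | h
      · exact (hD z' hd).2 (by rw [h, Sym2.eq_swap]; exact hzz)
      · exact hz'.2 (Finset.mem_filter.mpr ⟨List.mem_toFinset.mpr hd, List.mem_toFinset.mpr h⟩)
    · rw [← hR]
      rw [hL] at hl
      exact (List.Perm.append_left _ (List.Perm.cons _ (List.reverse_perm _))).nodup_iff.mpr hl
    · intro e
      rw [E_mid, ← hR, E_reverse, ← e1, hL, E_mid, E_cons_cons z', E_cons_cons z, E_cons_cons y,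
        Sym2.eq_swap (a := z'), Sym2.eq_swap (a := y)]
      simp only [Multiset.count_add]
      omega
  · have hB := card_bad D σ hσ (q :: Q).toFinset
    obtain ⟨L1, y, y', L2, hL, hy, hy'⟩ := exists_consec _ hC.1 (q :: Q).toFinset _
      (lt_of_le_of_lt (by omega) hlen :
        (q :: Q).toFinset.card + ((q :: Q).toFinset ∪
          D.toFinset.filter (fun v => σ v ∈ (q :: Q).toFinset)).card + 1 < C.length)
    rw [List.mem_toFinset] at hy
    rw [Finset.mem_union, not_or, List.mem_toFinset] at hy'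
    have hyy : s(y', y) ∈ EC C := by
      rw [Sym2.eq_swap]
      exact Multiset.mem_of_le (E_le_EC C) (by rw [hL]; exact mem_E_mid _ _ _ _)
    obtain ⟨m, p1, e1⟩ := open_edge hC.2 hyy
    have f1 := edge_facts hC.1 hC.2 hyy
    refine ⟨y', y :: q :: Q, y' :: m ++ [y] ++ [q], ?_, by simp, ?_, ?_, ?_⟩
    · refine List.nodup_cons.mpr ⟨?_, List.nodup_cons.mpr ⟨hy, hQ⟩⟩
      intro h
      rcases List.mem_cons.mp h with h | h
      · exact f1.2.2 h
      · exact hy'.1 h
    · intro hd h
      rcases List.mem_cons.mp h with h | h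
      · exact (hD y' hd).1 h
      rcases List.mem_cons.mp h with h | h
      · exact (hD y' hd).2 (by rw [h]; exact hyy)
      · exact hy'.2 (Finset.mem_filter.mpr ⟨List.mem_toFinset.mpr hd, List.mem_toFinset.mpr h⟩)
    · exact nodup_snoc (p1.nodup_iff.mpr hC.1) (fun h => hq (p1.subset h))
    · intro e
      rw [E_snoc, ← e1, E_cons_cons y', E_cons_cons y]
      simp only [Multiset.count_add]
      omega

def Sparse {ι : Type*} (ℓ : ι → ℕ) : List ι → Prop
  | [] => True
  | a :: r => 9 * r.length < ℓ a ∧ Sparse ℓ r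

lemma absorb_aux {ι : Type*} (c : ι → List V) (r : List ι) : ∀ (a : ι), (a :: r).Nodup →
    (∀ i ∈ a :: r, Cyc (c i)) →
    (∀ i ∈ a :: r, ∀ j ∈ a :: r, i ≠ j → ∀ z ∈ EC (c i), z ∉ EC (c j)) →
    Sparse (fun i => (c i).length) (a :: r) →
    ∀ (D : List V) (σ : V → V), Set.InjOn σ {v | v ∈ D} →
      (∀ v ∈ D, σ v ≠ v ∧ s(v, σ v) ∉ EC (c a)) →
      ∃ q Q, (q :: Q).Nodup ∧ Q.length ≤ 3 * r.length + 1 ∧ (q ∈ D → σ q ∉ q :: Q) ∧
        OC (((a :: r).map (fun i => EC (c i))).sum + E (q :: Q)) (r.length + 1) := by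
  induction r with
  | nil =>
    intro a _ hc _ _ D σ _ hD
    have hC := hc a (by simp)
    obtain ⟨τ, -, hτ⟩ := exists_succ hC.1
    obtain ⟨q, hq⟩ : ∃ q, q ∈ c a := List.exists_mem_of_length_pos (by have := hC.2; omega)
    have he := hτ q hq
    obtain ⟨m, p1, e1⟩ := open_edge hC.2 he
    have f1 := edge_facts hC.1 hC.2 he
    refine ⟨q, [τ q], by simpa using f1.2.2, by simp, ?_, ?_⟩
    · intro hd h
      rcases List.mem_cons.mp h with h | h
      · exact (hD q hd).1 h
      · exact (hD q hd).2 (by rw [List.mem_singleton.mp h]; exact he)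
    · refine (OC_path (p1.nodup_iff.mpr hC.1)).congr fun e => ?_
      simp only [List.map_cons, List.map_nil, List.sum_cons, List.sum_nil, add_zero]
      rw [← e1, E_cons_cons q (τ q)]
      simp only [Multiset.count_add, E_single, Multiset.count_zero]
      omega
  | cons b r ih =>
    intro a hn hc hd hs D σ hσ hD
    have hC := hc a (by simp)
    obtain ⟨τ, hτ1, hτ⟩ := exists_succ hC.1
    have hab : a ≠ b := by
      intro h; exact (List.nodup_cons.mp hn).1 (by simp [h])
    obtain ⟨q, Q, h1, h2, h3, h4⟩ := ih b (List.nodup_cons.mp hn).2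
      (fun i hi => hc i (List.mem_cons_of_mem _ hi))
      (fun i hi j hj => hd i (List.mem_cons_of_mem _ hi) j (List.mem_cons_of_mem _ hj)) hs.2
      (c a) τ hτ1 (fun v hv => ⟨(edge_facts hC.1 hC.2 (hτ v hv)).2.2.symm,
        hd a (by simp) b (by simp) hab _ (hτ v hv)⟩)
    have hlen := hs.1
    simp only [List.length_cons] at hlen
    obtain ⟨q', Q', P, g1, g2, g3, g4, g5⟩ := step hC q Q h1
      (fun h => ⟨τ q, hτ q h, h3 h⟩) (by omega) D σ hσ hD
    refine ⟨q', Q', g1, by simp only [List.length_cons]; omega, g3, ?_⟩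
    refine (((OC_path g4).add h4).mono (by simp only [List.length_cons]; omega)).congr fun e => ?_
    have := g5 e
    simp only [List.map_cons, List.sum_cons, Multiset.count_add] at this ⊢
    omega

lemma absorb {ι : Type*} (c : ι → List V) (l : List ι) (hn : l.Nodup)
    (hc : ∀ i ∈ l, Cyc (c i))
    (hd : ∀ i ∈ l, ∀ j ∈ l, i ≠ j → ∀ z ∈ EC (c i), z ∉ EC (c j))
    (hs : Sparse (fun i => (c i).length) l) :
    OC (l.map (fun i => EC (c i))).sum (l.length + 1) := by
  cases l with
  | nil => simpa using OC_zero.mono (Nat.zero_le 1)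
  | cons a r =>
    obtain ⟨q, Q, h1, -, -, h4⟩ := absorb_aux c r a hn hc hd hs [] id (by simp) (by simp)
    refine (h4.add (OC_path h1)).congr fun e => ?_
    simp only [Multiset.count_add]
    omega

lemma partition {ι : Type*} [DecidableEq ι] (ℓ : ι → ℕ) (s : Finset ι)
    (h : ∀ t ⊆ s, ∀ L, t.Nonempty → (∀ i ∈ t, ℓ i ≤ L) → t.card + 5 ≤ 2 * L) :
    ∃ L : Fin 18 → List ι, (∀ t, Sparse ℓ (L t)) ∧ ∑ t, (L t : Multiset ι) = s.val := by
  induction s using Finset.induction_on_max_value ℓ with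
  | empty => exact ⟨fun _ => [], fun _ => trivial, by simp⟩
  | insert a s ha hmax ih =>
    obtain ⟨L, h1, h2⟩ := ih (fun t ht => h t (ht.trans (Finset.subset_insert _ _)))
    have hcard : ∑ t, (L t).length = s.card := by
      have := congrArg Multiset.card h2
      rw [Multiset.card_sum] at this
      simpa using this
    obtain ⟨t, ht⟩ : ∃ t, 18 * (L t).length ≤ s.card := by
      by_contra hc
      push Not at hc
      have : ∑ _t : Fin 18, (s.card + 1) ≤ ∑ t, 18 * (L t).length :=
        Finset.sum_le_sum fun t _ => hc t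
      rw [← Finset.mul_sum, hcard] at this
      simp at this
    have hb := h (insert a s) subset_rfl (ℓ a) (by simp) (by
      intro i hi
      rcases Finset.mem_insert.mp hi with h | h
      · rw [h]
      · exact hmax i h)
    rw [Finset.card_insert_of_notMem ha] at hb
    refine ⟨Function.update L t (a :: L t), ?_, ?_⟩
    · intro u
      by_cases hu : u = t
      · subst hu; rw [Function.update_self]; exact ⟨by omega, h1 u⟩
      · rw [Function.update_of_ne hu]; exact h1 u
    · rw [← Finset.add_sum_erase _ _ (Finset.mem_univ t)] at h2 ⊢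
      rw [Finset.insert_val_of_notMem ha, ← h2, Function.update_self]
      rw [Finset.sum_congr rfl (fun u hu => by
        rw [Function.update_of_ne (Finset.ne_of_mem_erase hu)])]
      rw [← Multiset.cons_coe, Multiset.cons_add]

end Pool.Agent.H945Z.OC
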