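import Pool.Agent.H945Z.OC.Basic

namespace Pool.Agent.H945Z.OC

variable {V : Type*}

/-- an object is a path (flag false) or a cycle (flag true) given by its list of vertices -/
abbrev Obj (V : Type*) := Bool × List V

def Valid (o : Obj V) : Prop := o.2.Nodup ∧ (o.1 = true → 3 ≤ o.2.length)

def EE (o : Obj V) : Multiset (Sym2 V) := if o.1 = true then EC o.2 else E o.2

def IsEnd (v : V) (o : Obj V) : Prop :=
  o.1 = false ∧ (o.2.head? = some v ∨ o.2.getLast? = some v)

@[simp] lemma EE_false (l : List V) : EE (false, l) = E l := by simp [EE]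
@[simp] lemma EE_true (l : List V) : EE (true, l) = EC l := by simp [EE]

lemma E_cons_head {l : List V} {h : V} (x : V) (hh : l.head? = some h) :
    E (x :: l) = E l + {s(x, h)} := by
  cases l with
  | nil => simp at hh
  | cons a r => simp at hh; subst hh; rw [E_cons_cons, add_comm]

lemma E_snoc_last {l : List V} {t : V} (x : V) (ht : l.getLast? = some t) :
    E (l ++ [x]) = E l + {s(x, t)} := by
  rw [← E_reverse, ← E_reverse l]
  simp only [List.reverse_append, List.reverse_cons, List.reverse_nil, List.nil_append,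
    List.cons_append]
  exact E_cons_head x (by rw [List.head?_reverse]; exact ht)

def Step [DecidableEq V] (x : V) (A B : Multiset (Sym2 V)) (y : V) : Prop :=
  B ≤ A + {s(x, y)} ∧ (∀ z ∈ A, x ∉ z → z ∈ B) ∧ s(x, y) ∈ B

lemma step_of [DecidableEq V] (x y : V) {A B M R : Multiset (Sym2 V)} (hR : ∀ z ∈ R, x ∈ z)
    (hA : A = M + R) (hB : B = M + {s(x, y)}) : Step x A B y := by
  subst hA hB
  refine ⟨?_, ?_, by simp⟩
  · rw [add_right_comm]; exact Multiset.le_add_right _ _
  · intro z hz hx
    rcases Multiset.mem_add.mp hz with h | h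
    · exact Multiset.mem_add.mpr (Or.inl h)
    · exact absurd (hR z h) hx

lemma four [DecidableEq V] (x : V) (o : Obj V) (ho : Valid o) :
    ∃ (F : Bool → Bool → Obj V) (p q : V), F false false = o ∧
      (∀ v, IsEnd v o → v = p ∨ v = q) ∧
      ((∃ v, IsEnd v o) →
      (∀ b1 b2, (b1 = true → b2 = true → p ≠ q) → Valid (F b1 b2)) ∧
      (p ≠ x → ∀ b, Step x (EE (F false b)) (EE (F true b)) p) ∧
      (q ≠ x → ∀ b, Step x (EE (F b false)) (EE (F b true)) q)) := by
  obtain ⟨c, l⟩ := o
  cases c with
  | true => exact ⟨fun _ _ => (true, l), x, x, rfl, by simp [IsEnd], by simp [IsEnd]⟩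
  | false =>
  cases hl : l with
  | nil => exact ⟨fun _ _ => (false, []), x, x, rfl, by simp [IsEnd], by simp [IsEnd]⟩
  | cons p r =>
  rw [← hl]
  have hp : l.head? = some p := by simp [hl]
  obtain ⟨q, hq⟩ : ∃ q, l.getLast? = some q := ⟨l.getLast (by simp [hl]), List.getLast?_eq_some_getLast _⟩
  have hn : l.Nodup := ho.1
  have hends : ∀ v, IsEnd v (false, l) → v = p ∨ v = q := by
    rintro v ⟨-, h | h⟩
    · left; simp only [hp] at h; exact (Option.some.inj h).symm
    · right; simp only [hq] at h; exact (Option.some.inj h).symm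
  by_cases hx : x ∈ l
  · obtain ⟨A, B, hAB⟩ := List.append_of_mem hx
    refine ⟨fun b1 b2 => (false, (if b1 = true then A.reverse else A) ++
      x :: (if b2 = true then B.reverse else B)), p, q, by simp [hAB], hends, fun _ => ⟨?_, ?_, ?_⟩⟩
    · intro b1 b2 _
      refine ⟨?_, by simp⟩
      refine (List.Perm.nodup_iff ?_).mpr (hAB ▸ hn)
      refine List.Perm.append ?_ (List.Perm.cons _ ?_)
      · split_ifs; exacts [List.reverse_perm _, List.Perm.refl _]
      · split_ifs; exacts [List.reverse_perm _, List.Perm.refl _]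
    · intro hpx b
      have hA : A.head? = some p := by
        cases A with
        | nil => rw [hAB] at hp; simp at hp; exact absurd hp.symm hpx
        | cons a A' => rw [hAB] at hp; simpa using hp
      obtain ⟨w, hw⟩ : ∃ w, A.getLast? = some w :=
        ⟨A.getLast (by rintro rfl; simp at hA), List.getLast?_eq_some_getLast _⟩
      refine step_of x p (M := E A + E (x :: (if b = true then B.reverse else B)))
        (R := {s(x, w)}) (by simp) ?_ ?_
      · simp only [EE_false, Bool.false_eq_true, if_false]
        rw [E_append, E_snoc_last x hw]; abel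
      · simp only [EE_false, if_true]
        rw [E_append, E_snoc_last x (t := p) (by rw [List.getLast?_reverse]; exact hA), E_reverse]
        abel
    · intro hqx b
      have hB : B.getLast? = some q := by
        rcases List.eq_nil_or_concat B with h | ⟨B', d, h⟩
        · rw [hAB, h] at hq; simp at hq; exact absurd hq.symm hqx
        · rw [hAB, h, List.concat_eq_append, ← List.cons_append, ← List.append_assoc,
            List.getLast?_append] at hq
          rw [h]; simpa using hq
      obtain ⟨w, hw⟩ : ∃ w, B.head? = some w := by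
        cases B with
        | nil => simp at hB
        | cons a B' => exact ⟨a, rfl⟩
      refine step_of x q (M := E ((if b = true then A.reverse else A) ++ [x]) + E B)
        (R := {s(x, w)}) (by simp) ?_ ?_
      · simp only [EE_false, Bool.false_eq_true, if_false]
        rw [E_append, E_cons_head x hw]; abel
      · simp only [EE_false, if_true]
        rw [E_append, E_cons_head x (h := q) (by rw [List.head?_reverse]; exact hB), E_reverse]
        abel
  · have h1 : E (x :: l) = E l + {s(x, p)} := E_cons_head x hp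
    have h2 : E (l ++ [x]) = E l + {s(x, q)} := E_snoc_last x hq
    have h3 : EC (x :: l) = E l + {s(x, p)} + {s(x, q)} := by
      rw [EC_cons, E_snoc_last x (t := q), h1]
      rw [hl] at hq ⊢
      simpa using hq
    refine ⟨fun b1 b2 => if b1 = true then (if b2 = true then (true, x :: l) else (false, x :: l))
      else (if b2 = true then (false, l ++ [x]) else (false, l)), p, q, by simp, hends,
      fun _ => ⟨?_, ?_, ?_⟩⟩
    · intro b1 b2 hpq
      have hxl : (x :: l).Nodup := List.nodup_cons.mpr ⟨hx, hn⟩
      cases b1 <;> cases b2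
      · exact ⟨hn, by simp⟩
      · exact ⟨(List.perm_append_singleton x l).nodup_iff.mpr hxl, by simp⟩
      · exact ⟨hxl, by simp⟩
      · refine ⟨hxl, fun _ => ?_⟩
        have hne := hpq rfl rfl
        cases r with
        | nil => rw [hl] at hq; simp at hq; exact absurd hq hne
        | cons a r' => simp [hl]
    · intro _ b
      cases b
      · exact step_of x p (M := E l) (R := 0) (by simp) (by simp) (by simp [h1])
      · exact step_of x p (M := E l + {s(x, q)}) (R := 0) (by simp) (by simp [h2])
          (by simp only [if_true, EE_true, h3]; abel)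
    · intro _ b
      cases b
      · exact step_of x q (M := E l) (R := 0) (by simp) (by simp) (by simp [h2])
      · exact step_of x q (M := E l + {s(x, p)}) (R := 0) (by simp) (by simp [h1])
          (by simp only [if_true, EE_true, h3])

lemma sum_step [DecidableEq V] {ι : Type*} [Fintype ι] [DecidableEq ι] (x v : V)
    (f g : ι → Multiset (Sym2 V)) (i : ι) (hi : Step x (f i) (g i) v)
    (hj : ∀ j, j ≠ i → g j = f j) (G : Multiset (Sym2 V)) (hle : ∑ j, f j ≤ G)
    (hoff : ∀ z ∈ G, x ∉ z → z ∈ ∑ j, f j) (hv : s(x, v) ∈ G) (hv' : s(x, v) ∉ ∑ j, f j) :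
    ∑ j, g j ≤ G ∧ ∀ z ∈ G, x ∉ z → z ∈ ∑ j, g j := by
  have e1 : ∑ j, f j = f i + ∑ j ∈ Finset.univ.erase i, f j :=
    (Finset.add_sum_erase _ _ (Finset.mem_univ i)).symm
  have e2 : ∑ j, g j = g i + ∑ j ∈ Finset.univ.erase i, f j := by
    rw [← Finset.add_sum_erase _ _ (Finset.mem_univ i)]
    congr 1
    exact Finset.sum_congr rfl fun j hj' => hj j (Finset.ne_of_mem_erase hj')
  constructor
  · have h1 : ∑ j, g j ≤ s(x, v) ::ₘ ∑ j, f j := by
      rw [e1, e2, ← Multiset.singleton_add, ← add_assoc, add_comm {s(x, v)}]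
      exact add_le_add_left hi.1 _
    exact h1.trans ((Multiset.cons_le_of_notMem hv').mpr ⟨hv, hle⟩)
  · intro z hz hx
    have := hoff z hz hx
    rw [e1] at this
    rw [e2]
    rcases Multiset.mem_add.mp this with h | h
    · exact Multiset.mem_add.mpr (Or.inl (hi.2.1 z h hx))
    · exact Multiset.mem_add.mpr (Or.inr h)

lemma hub [DecidableEq V] {ι : Type*} [Fintype ι] (x : V) (o : ι → Obj V)
    (hv : ∀ i, Valid (o i)) (G : Multiset (Sym2 V)) (hG : G.Nodup)
    (hle : ∑ i, EE (o i) ≤ G) (hoff : ∀ z ∈ G, x ∉ z → z ∈ ∑ i, EE (o i))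
    (hend : ∀ v, s(x, v) ∈ G → v ≠ x ∧ ∃ i, IsEnd v (o i)) :
    ∃ o' : ι → Obj V, (∀ i, Valid (o' i)) ∧ ∑ i, EE (o' i) = G := by
  classical
  choose F p q hF0 hE hF using fun i => four x (o i) (hv i)
  let cfg : Finset (ι × Bool) → ι → Obj V := fun S i =>
    F i (decide ((i, false) ∈ S)) (decide ((i, true) ∈ S))
  let Good : Finset (ι × Bool) → Prop := fun S =>
    (∀ i, (i, false) ∈ S → p i ≠ x ∧ ∃ v, IsEnd v (o i)) ∧
    (∀ i, (i, true) ∈ S → q i ≠ x ∧ ∃ v, IsEnd v (o i)) ∧
    (∀ i, Valid (cfg S i)) ∧ ∑ i, EE (cfg S i) ≤ G ∧ ∀ z ∈ G, x ∉ z → z ∈ ∑ i, EE (cfg S i)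
  have h0 : Good ∅ := by
    have : ∀ i, cfg ∅ i = o i := fun i => by simp [cfg, hF0]
    refine ⟨by simp, by simp, ?_, ?_, ?_⟩ <;> simp only [this] <;> assumption
  obtain ⟨S, hS, hmax⟩ := Finset.exists_max_image (Finset.univ.filter Good) Finset.card
    ⟨∅, by simpa using h0⟩
  have hS : Good S := by simpa using hS
  have hmax : ∀ S', Good S' → S'.card ≤ S.card := fun S' h => hmax S' (by simpa using h)
  refine ⟨cfg S, hS.2.2.1, ?_⟩
  refine le_antisymm hS.2.2.2.1 ((Multiset.le_iff_subset hG).mpr ?_)
  intro z hz
  by_contra hz'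
  have hxz : x ∈ z := by
    by_contra h; exact hz' (hS.2.2.2.2 z hz h)
  obtain ⟨v, rfl⟩ := Sym2.mem_iff_exists.mp hxz
  obtain ⟨hvx, i, hi⟩ := hend v hz
  obtain ⟨hV, hp, hq⟩ := hF i ⟨v, hi⟩
  have hmem : ∀ z, z ∈ EE (cfg S i) → z ∈ ∑ i, EE (cfg S i) := fun z h =>
    Multiset.mem_of_le (Finset.single_le_sum (f := fun i => EE (cfg S i))
      (fun _ _ => Multiset.zero_le _) (Finset.mem_univ i)) h
  have lockp : (i, false) ∈ S → p i ≠ v := by
    intro h hpv
    apply hz'
    apply hmem
    have := (hp (hS.1 i h).1 (decide ((i, true) ∈ S))).2.2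
    simpa [cfg, h, hpv] using this
  have lockq : (i, true) ∈ S → q i ≠ v := by
    intro h hqv
    apply hz'
    apply hmem
    have := (hq (hS.2.1 i h).1 (decide ((i, false) ∈ S))).2.2
    simpa [cfg, h, hqv] using this
  rcases hE i v hi with h | h
  · have hnot : (i, false) ∉ S := fun h' => lockp h' h.symm
    have hoth : ∀ j, j ≠ i → cfg (insert (i, false) S) j = cfg S j := by
      intro j hj; simp [cfg, hj]
    have hst : Step x (EE (cfg S i)) (EE (cfg (insert (i, false) S) i)) v := by
      have := hp (h ▸ hvx) (decide ((i, true) ∈ S))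
      simpa [cfg, hnot, h] using this
    have := sum_step x v (fun j => EE (cfg S j)) (fun j => EE (cfg (insert (i, false) S) j)) i hst
      (fun j hj => by simp only [hoth j hj]) G hS.2.2.2.1 hS.2.2.2.2 hz hz'
    have hg : Good (insert (i, false) S) := by
      refine ⟨?_, ?_, ?_, this.1, this.2⟩
      · intro j hj
        rcases Finset.mem_insert.mp hj with h' | h'
        · have : j = i := by simpa using h'
          subst this; exact ⟨h ▸ hvx, v, hi⟩
        · exact hS.1 j h'
      · intro j hj
        exact hS.2.1 j (by simpa using hj)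
      · intro j
        by_cases hj : j = i
        · subst hj
          apply hV
          intro _ h2
          have h2 : (j, true) ∈ S := by simpa using h2
          exact fun h3 => lockq h2 (h3.symm.trans h.symm)
        · rw [hoth j hj]; exact hS.2.2.1 j
    have := hmax _ hg
    rw [Finset.card_insert_of_notMem hnot] at this
    omega
  · have hnot : (i, true) ∉ S := fun h' => lockq h' h.symm
    have hoth : ∀ j, j ≠ i → cfg (insert (i, true) S) j = cfg S j := by
      intro j hj; simp [cfg, hj]
    have hst : Step x (EE (cfg S i)) (EE (cfg (insert (i, true) S) i)) v := by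
      have := hq (h ▸ hvx) (decide ((i, false) ∈ S))
      simpa [cfg, hnot, h] using this
    have := sum_step x v (fun j => EE (cfg S j)) (fun j => EE (cfg (insert (i, true) S) j)) i hst
      (fun j hj => by simp only [hoth j hj]) G hS.2.2.2.1 hS.2.2.2.2 hz hz'
    have hg : Good (insert (i, true) S) := by
      refine ⟨?_, ?_, ?_, this.1, this.2⟩
      · intro j hj
        exact hS.1 j (by simpa using hj)
      · intro j hj
        rcases Finset.mem_insert.mp hj with h' | h'
        · have : j = i := by simpa using h'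
          subst this; exact ⟨h ▸ hvx, v, hi⟩
        · exact hS.2.1 j h'
      · intro j
        by_cases hj : j = i
        · subst hj
          apply hV
          intro h2 _
          have h2 : (j, false) ∈ S := by simpa using h2
          exact fun h3 => lockp h2 (h3.trans h.symm)
        · rw [hoth j hj]; exact hS.2.2.1 j
    have := hmax _ hg
    rw [Finset.card_insert_of_notMem hnot] at this
    omega

end Pool.Agent.H945Z.OC
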