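import Pool.Agent.H945Z.OC.Hub

namespace Pool.Agent.H945Z.OC

variable {V : Type*} [DecidableEq V]

def deg (G : Multiset (Sym2 V)) (v : V) : ℕ := G.countP (fun z => v ∈ z)

lemma deg_add (A B : Multiset (Sym2 V)) (v : V) : deg (A + B) v = deg A v + deg B v :=
  Multiset.countP_add _ _ _

@[simp] lemma deg_zero (v : V) : deg (0 : Multiset (Sym2 V)) v = 0 := rfl

lemma deg_single (z : Sym2 V) (v : V) : deg {z} v = if v ∈ z then 1 else 0 := by
  unfold deg
  rw [← Multiset.cons_zero, Multiset.countP_cons]; simp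

lemma deg_sum {ι : Type*} (s : Finset ι) (f : ι → Multiset (Sym2 V)) (v : V) :
    deg (∑ i ∈ s, f i) v = ∑ i ∈ s, deg (f i) v := by
  classical
  induction s using Finset.induction_on with
  | empty => simp
  | insert a s h ih => rw [Finset.sum_insert h, Finset.sum_insert h, deg_add, ih]

lemma deg_pos {G : Multiset (Sym2 V)} {v : V} : 0 < deg G v ↔ ∃ w, s(v, w) ∈ G := by
  unfold deg
  rw [Multiset.countP_pos]
  constructor
  · rintro ⟨z, h1, h2⟩
    obtain ⟨w, rfl⟩ := Sym2.mem_iff_exists.mp h2
    exact ⟨w, h1⟩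
  · rintro ⟨w, h⟩; exact ⟨_, h, by simp⟩

lemma par_E (v : V) (l : List V) (hl : ∀ z ∈ E l, ¬ z.IsDiag) :
    (deg (E l) v + (if l.head? = some v then 1 else 0)
      + (if l.getLast? = some v then 1 else 0)) % 2 = 0 := by
  induction l with
  | nil => simp
  | cons a l ih =>
    cases l with
    | nil => by_cases h : a = v <;> simp [h]
    | cons b l =>
      rw [E_cons_cons] at hl ⊢
      have ih := ih (fun z hz => hl z (Multiset.mem_add.mpr (Or.inr hz)))
      have hab : a ≠ b := by simpa using hl s(a, b) (by simp)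
      rw [deg_add, deg_single, List.getLast?_cons_cons]
      simp only [List.head?_cons, Option.some.injEq, Sym2.mem_iff] at ih ⊢
      by_cases h1 : a = v <;> by_cases h2 : b = v
      · exact absurd (h1.trans h2.symm) hab
      · simp only [h1, h2, true_or, if_true, if_false] at ih ⊢; omega
      · simp only [h1, h2, or_true, if_true, if_false] at ih ⊢; omega
      · have h1' : ¬ v = a := fun h => h1 h.symm
        have h2' : ¬ v = b := fun h => h2 h.symm
        simp only [h1, h2, h1', h2', or_self, if_false] at ih ⊢; omega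

lemma end_of_odd {v : V} {o : Obj V} (hl : ∀ z ∈ EE o, ¬ z.IsDiag) (h : deg (EE o) v % 2 = 1) :
    IsEnd v o := by
  obtain ⟨c, l⟩ := o
  cases c with
  | true =>
    exfalso
    simp only [EE_true] at hl h
    cases l with
    | nil => simp [EC] at h
    | cons a r =>
      rw [EC_cons] at hl h
      have := par_E v _ hl
      rw [List.getLast?_append] at this
      by_cases h1 : a = v <;> simp [h1] at this h <;> omega
  | false =>
    simp only [EE_false] at hl h
    have := par_E v _ hl
    refine ⟨rfl, ?_⟩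
    by_contra hc
    push Not at hc
    simp [hc.1, hc.2] at this
    omega

lemma exists_odd {ι : Type*} [Fintype ι] (f : ι → Multiset (Sym2 V)) (v : V)
    (h : deg (∑ i, f i) v % 2 = 1) : ∃ i, deg (f i) v % 2 = 1 := by
  by_contra hc
  push Not at hc
  rw [deg_sum, Finset.sum_nat_mod] at h
  rw [Finset.sum_eq_zero (fun i _ => by have := hc i; omega)] at h
  simp at h

lemma le_sum {ι : Type*} [Fintype ι] (f : ι → Multiset (Sym2 V)) (i : ι) : f i ≤ ∑ j, f j :=
  Finset.single_le_sum (f := f) (fun _ _ => Multiset.zero_le _) (Finset.mem_univ i)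

lemma exists_end {ι : Type*} [Fintype ι] (o : ι → Obj V) (v : V)
    (hd : ∀ z ∈ ∑ i, EE (o i), ¬ z.IsDiag) (h : deg (∑ i, EE (o i)) v % 2 = 1) :
    ∃ i, IsEnd v (o i) ∧ deg (EE (o i)) v % 2 = 1 := by
  obtain ⟨i, hi⟩ := exists_odd (fun i => EE (o i)) v h
  exact ⟨i, end_of_odd (fun z hz => hd z (Multiset.mem_of_le (le_sum (fun i => EE (o i)) i) hz)) hi,
    hi⟩

lemma handshake (G : Multiset (Sym2 V)) (Vs : Finset V) (hd : ∀ z ∈ G, ¬ z.IsDiag)
    (hs : ∀ z ∈ G, ∀ v ∈ z, v ∈ Vs) : ∑ v ∈ Vs, deg G v = 2 * G.card := by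
  induction G using Multiset.induction_on with
  | empty => simp
  | cons z G ih =>
    rw [← Multiset.singleton_add]
    simp only [deg_add, Finset.sum_add_distrib]
    rw [ih (fun z hz => hd z (Multiset.mem_cons_of_mem hz))
      (fun z hz => hs z (Multiset.mem_cons_of_mem hz))]
    have h1 := hd z (Multiset.mem_cons_self _ _)
    have h2 := hs z (Multiset.mem_cons_self _ _)
    induction z using Sym2.ind with
    | _ a b =>
      have hab : a ≠ b := by simpa using h1
      have : ∑ v ∈ Vs, deg {s(a, b)} v = 2 := by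
        simp only [deg_single]
        rw [← Finset.card_filter]
        have : Vs.filter (fun v => v ∈ s(a, b)) = {a, b} := by
          ext v
          simp only [Finset.mem_filter, Finset.mem_insert, Finset.mem_singleton]
          constructor
          · intro h; simpa using h.2
          · intro h
            have : v ∈ s(a, b) := by simpa using h
            exact ⟨h2 v this, this⟩
        rw [this, Finset.card_pair hab]
      rw [this]; simp; ring

def Dec (G : Multiset (Sym2 V)) (n : ℕ) : Prop :=
  ∃ k, ∃ o : Fin k → Obj V, 2 * k ≤ n ∧ (∀ i, Valid (o i)) ∧ ∑ i, EE (o i) = G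

def Gr (G : Multiset (Sym2 V)) (Vs : Finset V) : Prop :=
  G.Nodup ∧ (∀ z ∈ G, ¬ z.IsDiag) ∧ ∀ z ∈ G, ∀ v ∈ z, v ∈ Vs

lemma Gr.mono {G H : Multiset (Sym2 V)} {Vs : Finset V} (h : Gr G Vs) (hle : H ≤ G) : Gr H Vs :=
  ⟨Multiset.nodup_of_le hle h.1, fun z hz => h.2.1 z (Multiset.mem_of_le hle hz),
    fun z hz => h.2.2 z (Multiset.mem_of_le hle hz)⟩

lemma caseA (G : Multiset (Sym2 V)) (Vs : Finset V) (hG : Gr G Vs)
    (ih : ∀ H : Multiset (Sym2 V), H.card < G.card → Gr H Vs → Dec H Vs.card)
    (y : V) (hy : 0 < deg G y) (hy2 : deg G y % 2 = 0) : Dec G Vs.card := by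
  classical
  obtain ⟨x, hx⟩ := deg_pos.mp hy
  rw [Sym2.eq_swap] at hx
  let p : Sym2 V → Prop := fun z => ∃ v, z = s(x, v) ∧ deg G v % 2 = 0
  have hsplit : G.filter p + G.filter (fun z => ¬ p z) = G := Multiset.filter_add_not _ _
  set H := G.filter (fun z => ¬ p z) with hH
  have hle : H ≤ G := Multiset.filter_le _ _
  have hcard : H.card < G.card := by
    have : 0 < (G.filter p).card :=
      Multiset.card_pos_iff_exists_mem.mpr ⟨_, Multiset.mem_filter.mpr ⟨hx, y, rfl, hy2⟩⟩
    have h2 := congrArg Multiset.card hsplit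
    rw [Multiset.card_add] at h2
    omega
  obtain ⟨k, o, hk, hv, hsum⟩ := ih H hcard (hG.mono hle)
  obtain ⟨o', h1, h2⟩ := hub x o hv G hG.1 (hsum ▸ hle) (by
    intro z hz hxz
    rw [hsum]
    refine Multiset.mem_filter.mpr ⟨hz, ?_⟩
    rintro ⟨v, rfl, -⟩
    exact hxz (by simp)) (by
    intro v hv
    have hvx : v ≠ x := by
      have := hG.2.1 _ hv
      simp at this
      exact fun h => this h.symm
    refine ⟨hvx, ?_⟩
    have hdeg : deg (G.filter p) v + deg H v = deg G v := by rw [← deg_add, hsplit]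
    have hR : deg (G.filter p) v = if deg G v % 2 = 0 then 1 else 0 := by
      unfold deg
      rw [Multiset.countP_eq_card_filter, Multiset.filter_filter]
      split_ifs with he
      · have : G.filter (fun z => v ∈ z ∧ p z) = G.filter (fun z => s(x, v) = z) := by
          apply Multiset.filter_congr
          intro z _
          constructor
          · rintro ⟨h1, u, rfl, -⟩
            rcases Sym2.mem_iff.mp h1 with h | h
            · exact absurd h hvx
            · rw [h]
          · rintro rfl
            exact ⟨by simp, v, rfl, he⟩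
        rw [this, ← Multiset.count_eq_card_filter_eq]
        exact Multiset.count_eq_one_of_mem hG.1 hv
      · rw [Multiset.card_eq_zero, Multiset.filter_eq_nil]
        rintro z _ ⟨h1, u, rfl, hu⟩
        rcases Sym2.mem_iff.mp h1 with h | h
        · exact hvx h
        · exact he (h ▸ hu)
    have hpos : 0 < deg G v := deg_pos.mpr ⟨x, by rwa [Sym2.eq_swap]⟩
    obtain ⟨i, hi, -⟩ := exists_end o v (by rw [hsum]; exact (hG.mono hle).2.1) (by
      rw [hsum]; split_ifs at hR <;> omega)
    exact ⟨i, hi⟩)
  exact ⟨k, o', hk, h1, h2⟩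

lemma end_form {v : V} {o : Obj V} (ho : Valid o) (he : IsEnd v o) :
    ∃ r, (v :: r).Nodup ∧ E (v :: r) = EE o := by
  obtain ⟨c, l⟩ := o
  obtain ⟨h1, h2⟩ := he
  simp only at h1 h2
  subst h1
  rcases h2 with h | h
  · cases l with
    | nil => simp at h
    | cons a r => simp at h; subst h; exact ⟨r, ho.1, by simp⟩
  · rw [← List.head?_reverse] at h
    have hn : l.reverse.Nodup := List.nodup_reverse.mpr ho.1
    have he := E_reverse l
    cases hl : l.reverse with
    | nil => simp [hl] at h
    | cons a r =>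
      rw [hl] at h hn he
      simp at h; subst h; exact ⟨r, hn, by simp [he]⟩

theorem lovasz [Infinite V] (m : ℕ) : ∀ (G : Multiset (Sym2 V)) (Vs : Finset V), G.card = m →
    Gr G Vs → Dec G Vs.card := by
  induction m using Nat.strong_induction_on with
  | _ m ih =>
  have hA : ∀ (G : Multiset (Sym2 V)) (Vs : Finset V), G.card = m → Gr G Vs → ∀ y, 0 < deg G y →
      deg G y % 2 = 0 → Dec G Vs.card := fun G Vs hm hG y h1 h2 =>
    caseA G Vs hG (fun H hH hH2 => ih H.card (hm ▸ hH) H Vs rfl hH2) y h1 h2
  intro G Vs hm hG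
  by_cases h1 : ∃ y, 0 < deg G y ∧ deg G y % 2 = 0
  · obtain ⟨y, h2, h3⟩ := h1
    exact hA G Vs hm hG y h2 h3
  have hodd : ∀ y, 0 < deg G y → deg G y % 2 = 1 := by
    intro y hy
    by_contra h
    exact h1 ⟨y, hy, by omega⟩
  by_cases h2 : ∃ x, 2 ≤ deg G x
  · obtain ⟨x, hx⟩ := h2
    obtain ⟨y, hxy⟩ := deg_pos.mp (show 0 < deg G x by omega)
    have hne : x ≠ y := by simpa using hG.2.1 _ hxy
    obtain ⟨z, hz⟩ := Infinite.exists_notMem_finset Vs
    have hxV : x ∈ Vs := hG.2.2 _ hxy x (by simp)
    have hyV : y ∈ Vs := hG.2.2 _ hxy y (by simp)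
    have hzx : x ≠ z := fun h => hz (h ▸ hxV)
    have hzy : y ≠ z := fun h => hz (h ▸ hyV)
    set G0 := G.erase s(x, y) with hG0
    have hsplit : {s(x, y)} + G0 = G := by
      rw [Multiset.singleton_add]; exact Multiset.cons_erase hxy
    have hle : G0 ≤ G := Multiset.erase_le _ _
    have hG0' := hG.mono hle
    set Vs' := Vs.filter (fun v => 0 < deg G v) with hVs'
    have hsup : ∀ e ∈ G, ∀ v ∈ e, v ∈ Vs' := by
      intro e he v hv
      refine Finset.mem_filter.mpr ⟨hG.2.2 e he v hv, ?_⟩
      obtain ⟨w, rfl⟩ := Sym2.mem_iff_exists.mp hv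
      exact deg_pos.mpr ⟨w, he⟩
    have hev : Vs'.card % 2 = 0 := by
      have h := handshake G Vs' hG.2.1 hsup
      have h' : (∑ v ∈ Vs', deg G v) % 2 = (∑ v ∈ Vs', 1) % 2 := by
        rw [Finset.sum_nat_mod]
        congr 1
        exact Finset.sum_congr rfl fun v hv => hodd v (Finset.mem_filter.mp hv).2
      simp at h'
      omega
    have hzG0 : ∀ w, s(z, w) ∉ G0 := fun w h => hz (hG0'.2.2 _ h z (by simp))
    have hdz : deg G0 z = 0 := by
      by_contra h
      obtain ⟨w, hw⟩ := deg_pos.mp (Nat.pos_of_ne_zero h)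
      exact hzG0 w hw
    have hG2 : Gr ({s(z, y)} + G0) (insert z Vs') := by
      refine ⟨?_, ?_, ?_⟩
      · rw [Multiset.singleton_add]; exact Multiset.nodup_cons.mpr ⟨hzG0 y, hG0'.1⟩
      · intro e he
        rcases Multiset.mem_add.mp he with h | h
        · rw [Multiset.mem_singleton.mp h]; simpa using hzy.symm
        · exact hG0'.2.1 e h
      · intro e he v hv
        rcases Multiset.mem_add.mp he with h | h
        · rw [Multiset.mem_singleton.mp h] at hv
          rcases Sym2.mem_iff.mp hv with h | h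
          · simp [h]
          · exact Finset.mem_insert_of_mem (hsup _ hxy v (by simp [h]))
        · exact Finset.mem_insert_of_mem (hsup e (Multiset.mem_of_le hle h) v hv)
    have hdx : deg G x = 1 + deg G0 x := by
      conv_lhs => rw [← hsplit, deg_add, deg_single]
      simp
    have hdx2 : deg ({s(z, y)} + G0) x = deg G0 x := by
      rw [deg_add, deg_single]; simp [hzx, hne]
    have hox := hodd x (by omega)
    obtain ⟨k, o, hk, hv, hsum⟩ := hA ({s(z, y)} + G0) (insert z Vs') (by
      rw [← hm, ← hsplit]; simp) hG2 x (by omega) (by omega)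
    have hk' : 2 * k ≤ Vs.card := by
      have h3 := Finset.card_insert_le z Vs'
      have h4 : Vs'.card ≤ Vs.card := Finset.card_filter_le _ _
      omega
    obtain ⟨i, hi, hi2⟩ := exists_end o z (by rw [hsum]; exact hG2.2.1) (by
      rw [hsum, deg_add, deg_single, hdz]; simp)
    obtain ⟨r, hr, hr2⟩ := end_form (hv i) hi
    obtain ⟨y', r', rfl⟩ : ∃ y' r', r = y' :: r' := by
      cases r with
      | nil => rw [← hr2] at hi2; simp at hi2
      | cons a b => exact ⟨a, b, rfl⟩
    rw [E_cons_cons] at hr2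
    have hy' : y' = y := by
      have : s(z, y') ∈ {s(z, y)} + G0 := by
        rw [← hsum]
        exact Multiset.mem_of_le (le_sum (fun i => EE (o i)) i) (by rw [← hr2]; simp)
      rcases Multiset.mem_add.mp this with h | h
      · exact Sym2.congr_right.mp (Multiset.mem_singleton.mp h)
      · exact absurd h (hzG0 _)
    subst hy'
    let o2 := Function.update o i (false, y' :: r')
    have hv2 : ∀ j, Valid (o2 j) := by
      intro j
      by_cases hj : j = i
      · subst hj; simp only [o2, Function.update_self]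
        exact ⟨(List.nodup_cons.mp hr).2, by simp⟩
      · simp only [o2, Function.update_of_ne hj]; exact hv j
    have hsum2 : ∑ j, EE (o2 j) = G0 := by
      have e1 := Finset.add_sum_erase Finset.univ (fun j => EE (o j)) (Finset.mem_univ i)
      have e2 := Finset.add_sum_erase Finset.univ (fun j => EE (o2 j)) (Finset.mem_univ i)
      have e3 : ∑ j ∈ Finset.univ.erase i, EE (o2 j) = ∑ j ∈ Finset.univ.erase i, EE (o j) :=
        Finset.sum_congr rfl fun j hj => by
          simp only [o2, Function.update_of_ne (Finset.ne_of_mem_erase hj)]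
      rw [← e2, e3]
      rw [hsum, ← hr2, add_assoc] at e1
      have := add_left_cancel e1
      simpa [o2] using this
    obtain ⟨o', h3, h4⟩ := hub x o2 hv2 G hG.1 (hsum2 ▸ hle) (by
      intro e he hxe
      rw [hsum2]
      rw [← hsplit] at he
      rcases Multiset.mem_add.mp he with h | h
      · rw [Multiset.mem_singleton.mp h] at hxe; simp at hxe
      · exact h) (by
      intro v hv
      have hvx : v ≠ x := by
        have := hG.2.1 _ hv
        simp at this
        exact fun h => this h.symm
      refine ⟨hvx, ?_⟩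
      by_cases hvy : v = y'
      · exact ⟨i, by simp [o2, IsEnd, hvy]⟩
      · have hd : deg G v = deg G0 v := by
          conv_lhs => rw [← hsplit, deg_add, deg_single]
          simp [hvx, hvy]
        have := hodd v (deg_pos.mpr ⟨x, by rwa [Sym2.eq_swap]⟩)
        obtain ⟨j, hj, -⟩ := exists_end o2 v (by rw [hsum2]; exact hG0'.2.1) (by
          rw [hsum2]; omega)
        exact ⟨j, hj⟩)
    exact ⟨k, o', hk', h3, h4⟩
  · push Not at h2
    rcases Multiset.empty_or_exists_mem G with h0 | ⟨e, he⟩
    · exact ⟨0, Fin.elim0, by simp, by simp, by simp [h0]⟩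
    induction e using Sym2.ind with
    | _ a b =>
    have hne : a ≠ b := by simpa using hG.2.1 _ he
    set G0 := G.erase s(a, b) with hG0
    have hsplit : {s(a, b)} + G0 = G := by
      rw [Multiset.singleton_add]; exact Multiset.cons_erase he
    have hle : G0 ≤ G := Multiset.erase_le _ _
    have hG0' := hG.mono hle
    have hd : ∀ v ∈ s(a, b), deg G0 v = 0 := by
      intro v hv
      have h := h2 v
      rw [← hsplit, deg_add, deg_single, if_pos hv] at h
      omega
    have hG2 : Gr G0 (Vs \ {a, b}) := by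
      refine ⟨hG0'.1, hG0'.2.1, ?_⟩
      intro e he' v hv
      refine Finset.mem_sdiff.mpr ⟨hG0'.2.2 e he' v hv, fun h => ?_⟩
      have h0 := hd v (by simpa using h)
      obtain ⟨w, rfl⟩ := Sym2.mem_iff_exists.mp hv
      have := deg_pos.mpr ⟨w, he'⟩
      omega
    have hcard : G0.card < m := by
      rw [← hm, ← hsplit]; simp
    obtain ⟨k, o, hk, hv, hsum⟩ := ih _ hcard G0 _ rfl hG2
    have hsub : ({a, b} : Finset V) ⊆ Vs := by
      intro v hv
      exact hG.2.2 _ he v (by simpa using hv)
    have hc := Finset.card_sdiff_add_card_eq_card hsub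
    rw [Finset.card_pair hne] at hc
    refine ⟨k + 1, Fin.cons (false, [a, b]) o, by omega, ?_, ?_⟩
    · intro i
      refine Fin.cases ?_ (fun j => ?_) i
      · exact ⟨by simpa using hne, by simp⟩
      · simpa using hv j
    · rw [Fin.sum_univ_succ]
      simp only [Fin.cons_zero, Fin.cons_succ, hsum, EE_false]
      rw [E_cons_cons]; simpa using hsplit

end Pool.Agent.H945Z.OC
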