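import Pool.Agent.H945Z.OC.Cover
import Pool.Agent.H945Z.OC.Lov

namespace Pool.Agent.H945Z.OC

variable {V : Type*} [DecidableEq V]

lemma tournament {ι : Type*} [DecidableEq ι] (t : Finset ι) (ht : t.Nonempty) (R : ι → ι → Prop)
    [DecidableRel R] (hr : ∀ i ∈ t, R i i) (h : ∀ i ∈ t, ∀ j ∈ t, R i j ∨ R j i) :
    ∃ j ∈ t, t.card + 1 ≤ 2 * (t.filter (fun i => R i j)).card := by
  by_contra hc
  push Not at hc
  have e : ∑ j ∈ t, (t.filter (fun i => R j i)).card = ∑ j ∈ t, (t.filter (fun i => R i j)).card := by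
    simp only [Finset.card_filter]
    exact Finset.sum_comm
  have h1 : ∀ j ∈ t, t.card + 1 ≤
      (t.filter (fun i => R j i)).card + (t.filter (fun i => R i j)).card := by
    intro j hj
    rw [← Finset.card_union_add_card_inter]
    have a1 : t.card ≤ (t.filter (fun i => R j i) ∪ t.filter (fun i => R i j)).card := by
      apply Finset.card_le_card
      intro i hi
      simp only [Finset.mem_union, Finset.mem_filter]
      rcases h j hj i hi with h | h
      exacts [Or.inl ⟨hi, h⟩, Or.inr ⟨hi, h⟩]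
    have a2 : 0 < (t.filter (fun i => R j i) ∩ t.filter (fun i => R i j)).card :=
      Finset.card_pos.mpr ⟨j, by simp [hj, hr j hj]⟩
    omega
  have h2 := Finset.sum_le_sum h1
  rw [Finset.sum_add_distrib (f := fun j => (t.filter (fun i => R j i)).card), e,
    ← Finset.sum_add_distrib] at h2
  have h3 : ∑ j ∈ t, ((t.filter (fun i => R i j)).card + (t.filter (fun i => R i j)).card) <
      ∑ _j ∈ t, (t.card + 1) :=
    Finset.sum_lt_sum_of_nonempty ht fun j hj => by have := hc j hj; omega
  omega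

lemma through {ι : Type*} [DecidableEq ι] (c : ι → List V) (t : Finset ι) (ht : t.Nonempty)
    (hc : ∀ i ∈ t, Cyc (c i))
    (hd : ∀ i ∈ t, ∀ j ∈ t, i ≠ j → ∀ z ∈ EC (c i), z ∉ EC (c j))
    (hf : ∀ i ∈ t, ∀ j ∈ t, i ≠ j → ¬ OC (EC (c i) + EC (c j)) 2)
    (a : V) (ha : ∀ i ∈ t, a ∈ c i) (L : ℕ) (hL : ∀ i ∈ t, (c i).length ≤ L) :
    t.card + 2 ≤ L := by
  classical
  have : ∀ i, ∃ w w', i ∈ t → (w ≠ w' ∧ s(a, w) ∈ EC (c i) ∧ s(a, w') ∈ EC (c i)) := by
    intro i
    by_cases hi : i ∈ t
    · obtain ⟨w, w', h⟩ := two_nbrs (hc i hi).1 (hc i hi).2 (ha i hi)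
      exact ⟨w, w', fun _ => h⟩
    · exact ⟨a, a, fun h => absurd h hi⟩
  choose w w' hw using this
  obtain ⟨j, hj, hcard⟩ := tournament t ht (fun i j => w i ∈ c j ∧ w' i ∈ c j)
    (fun i hi => ⟨(edge_facts (hc i hi).1 (hc i hi).2 (hw i hi).2.1).2.1,
      (edge_facts (hc i hi).1 (hc i hi).2 (hw i hi).2.2).2.1⟩) (by
      intro i hi j hj
      by_cases hij : i = j
      · subst hij
        exact Or.inl ⟨(edge_facts (hc i hi).1 (hc i hi).2 (hw i hi).2.1).2.1,
          (edge_facts (hc i hi).1 (hc i hi).2 (hw i hi).2.2).2.1⟩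
      by_contra hcon
      rw [not_or, not_and_or, not_and_or] at hcon
      apply hf i hi j hj hij
      rcases hcon with ⟨h1 | h1, h2 | h2⟩
      · exact fix1 (hc i hi) (hc j hj) (hw i hi).2.1 h1 (hw j hj).2.1 h2
      · exact fix1 (hc i hi) (hc j hj) (hw i hi).2.1 h1 (hw j hj).2.2 h2
      · exact fix1 (hc i hi) (hc j hj) (hw i hi).2.2 h1 (hw j hj).2.1 h2
      · exact fix1 (hc i hi) (hc j hj) (hw i hi).2.2 h1 (hw j hj).2.2 h2)
  set u := t.filter (fun i => w i ∈ c j ∧ w' i ∈ c j) with hu
  let g : ι × Bool → V := fun x => if x.2 = true then w x.1 else w' x.1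
  have hg : ∀ i ∈ t, ∀ b, s(a, g (i, b)) ∈ EC (c i) := by
    intro i hi b
    cases b
    · exact (hw i hi).2.2
    · exact (hw i hi).2.1
  have h1 : (u ×ˢ (Finset.univ : Finset Bool)).card ≤ ((c j).toFinset.erase a).card := by
    apply Finset.card_le_card_of_injOn g
    · rintro ⟨i, b⟩ hx
      simp only [Finset.coe_product, Set.mem_prod, Finset.mem_coe, hu, Finset.mem_filter] at hx
      obtain ⟨⟨hi, h1, h2⟩, -⟩ := hx
      simp only [Finset.coe_erase, Set.mem_sdiff, Finset.mem_coe, List.mem_toFinset,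
        Set.mem_singleton_iff]
      refine ⟨by cases b <;> simp [g, h1, h2], ?_⟩
      exact (edge_facts (hc i hi).1 (hc i hi).2 (hg i hi b)).2.2.symm
    · rintro ⟨i, b⟩ hx ⟨i', b'⟩ hy hxy
      simp only [Finset.coe_product, Set.mem_prod, Finset.mem_coe, hu, Finset.mem_filter] at hx hy
      have hi := hx.1.1
      have hi' := hy.1.1
      have hii : i = i' := by
        by_contra hne
        exact hd i hi i' hi' hne _ (hg i hi b) (hxy ▸ hg i' hi' b')
      subst hii
      have hne := (hw i hi).1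
      cases b <;> cases b'
      · rfl
      · exact absurd hxy.symm hne
      · exact absurd hxy hne
      · rfl
  rw [Finset.card_product, Finset.card_univ, Fintype.card_bool] at h1
  have h2 := Finset.card_erase_add_one (List.mem_toFinset.mpr (ha j hj))
  have h3 := List.toFinset_card_le (c j)
  have h4 := hL j hj
  omega

lemma avoid {c : List V} (hc : Cyc c) (c' : List V)
    (h : 2 * (c.toFinset ∩ c'.toFinset).card < c.length) :
    ∃ x y, s(x, y) ∈ EC c ∧ x ∉ c' ∧ y ∉ c' := by
  obtain ⟨σ, h1, h2⟩ := exists_succ hc.1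
  have hb := card_bad c σ h1 (c.toFinset ∩ c'.toFinset)
  have hlt : (c.toFinset ∩ c'.toFinset ∪
      c.toFinset.filter (fun v => σ v ∈ c.toFinset ∩ c'.toFinset)).card < c.toFinset.card := by
    rw [List.toFinset_card_of_nodup hc.1]; omega
  obtain ⟨x, hx, hx'⟩ := Finset.exists_mem_notMem_of_card_lt_card hlt
  have hxc := List.mem_toFinset.mp hx
  have f := edge_facts hc.1 hc.2 (h2 x hxc)
  rw [Finset.mem_union, not_or] at hx'
  refine ⟨x, σ x, h2 x hxc, fun h => hx'.1 ?_, fun h => hx'.2 ?_⟩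
  · exact Finset.mem_inter.mpr ⟨hx, List.mem_toFinset.mpr h⟩
  · exact Finset.mem_filter.mpr ⟨hx, Finset.mem_inter.mpr
      ⟨List.mem_toFinset.mpr f.2.1, List.mem_toFinset.mpr h⟩⟩

lemma few {ι : Type*} [DecidableEq ι] (c : ι → List V) (t : Finset ι) (ht : t.Nonempty)
    (hc : ∀ i ∈ t, Cyc (c i))
    (hd : ∀ i ∈ t, ∀ j ∈ t, i ≠ j → ∀ z ∈ EC (c i), z ∉ EC (c j))
    (hf : ∀ i ∈ t, ∀ j ∈ t, i ≠ j → ¬ OC (EC (c i) + EC (c j)) 2)
    (L : ℕ) (hL : ∀ i ∈ t, (c i).length ≤ L) : t.card + 5 ≤ 2 * L := by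
  obtain ⟨i, hi, hmin⟩ := Finset.exists_min_image t (fun i => (c i).length) ht
  have hlen : (c i).toFinset.card = (c i).length := List.toFinset_card_of_nodup (hc i hi).1
  have h1 : ∀ j ∈ t, (c i).length + (if j = i then (c i).length else 0) ≤
      2 * ((c i).toFinset ∩ (c j).toFinset).card := by
    intro j hj
    split_ifs with hji
    · subst hji; rw [Finset.inter_self, hlen]; omega
    · by_contra hcon
      have hm := hmin j hj
      obtain ⟨x, y, e1, e2, e3⟩ := avoid (hc i hi) (c j) (by omega)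
      obtain ⟨x', y', e4, e5, e6⟩ := avoid (hc j hj) (c i) (by rw [Finset.inter_comm]; omega)
      exact hf i hi j hj (Ne.symm hji) (fix2 (hc i hi) (hc j hj) e1 e2 e3 e4 e5 e6)
  have h2 := Finset.sum_le_sum h1
  rw [Finset.sum_add_distrib, Finset.sum_ite_eq' t i, if_pos hi, Finset.sum_const,
    ← Finset.mul_sum, smul_eq_mul] at h2
  have h3 : ∑ j ∈ t, ((c i).toFinset ∩ (c j).toFinset).card =
      ∑ a ∈ (c i).toFinset, (t.filter (fun j => a ∈ c j)).card := by
    simp only [Finset.card_filter]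
    rw [Finset.sum_comm]
    refine Finset.sum_congr rfl fun j _ => ?_
    rw [← Finset.card_filter]
    congr 1
    ext a; simp
  have h4 : ∀ a ∈ (c i).toFinset, (t.filter (fun j => a ∈ c j)).card ≤ L - 2 := by
    intro a ha
    have := through c (t.filter (fun j => a ∈ c j))
      ⟨i, Finset.mem_filter.mpr ⟨hi, List.mem_toFinset.mp ha⟩⟩
      (fun j hj => hc j (Finset.mem_filter.mp hj).1)
      (fun j hj k hk => hd j (Finset.mem_filter.mp hj).1 k (Finset.mem_filter.mp hk).1)
      (fun j hj k hk => hf j (Finset.mem_filter.mp hj).1 k (Finset.mem_filter.mp hk).1)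
      a (fun j hj => (Finset.mem_filter.mp hj).2) L (fun j hj => hL j (Finset.mem_filter.mp hj).1)
    omega
  have h5 := Finset.sum_le_card_nsmul _ _ _ h4
  rw [smul_eq_mul, hlen] at h5
  have h6 : (t.card + 1) * (c i).length ≤ (2 * (L - 2)) * (c i).length := by nlinarith
  have h7 := (hc i hi).2
  have h8 := hL i hi
  have := Nat.le_of_mul_le_mul_right h6 (by omega)
  omega

lemma mmap_sum {α β ι : Type*} (f : α → β) (s : Finset ι) (g : ι → Multiset α) :
    (∑ i ∈ s, g i).map f = ∑ i ∈ s, (g i).map f :=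
  map_sum (Multiset.mapAddMonoidHom f) g s

lemma cycles {ι : Type*} [DecidableEq ι] (c : ι → List V) (s : Finset ι)
    (hc : ∀ i ∈ s, Cyc (c i))
    (hd : ∀ i ∈ s, ∀ j ∈ s, i ≠ j → ∀ z ∈ EC (c i), z ∉ EC (c j)) :
    OC (∑ i ∈ s, EC (c i)) (s.card + 18) := by
  induction s using Finset.strongInduction with
  | H s ih =>
  by_cases hf : ∃ i ∈ s, ∃ j ∈ s, i ≠ j ∧ OC (EC (c i) + EC (c j)) 2
  · obtain ⟨i, hi, j, hj, hij, h⟩ := hf
    have hsub : ({i, j} : Finset ι) ⊆ s := by
      intro x hx
      rcases Finset.mem_insert.mp hx with h | h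
      · rwa [h]
      · rwa [Finset.mem_singleton.mp h]
    have hss : s \ {i, j} ⊂ s := Finset.sdiff_ssubset hsub (by simp)
    have h2 := ih _ hss (fun x hx => hc x (hss.1 hx)) (fun x hx y hy => hd x (hss.1 hx) y (hss.1 hy))
    have hcard := Finset.card_sdiff_add_card_eq_card hsub
    rw [Finset.card_pair hij] at hcard
    rw [← Finset.sum_sdiff hsub, Finset.sum_pair hij]
    exact (h2.add h).mono (by omega)
  · push Not at hf
    obtain ⟨L, h1, h2⟩ := partition (fun i => (c i).length) s (fun t ht L hne hL =>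
      few c t hne (fun i hi => hc i (ht hi)) (fun i hi j hj => hd i (ht hi) j (ht hj))
        (fun i hi j hj => hf i (ht hi) j (ht hj)) L hL)
    have hle : ∀ t, (L t : Multiset ι) ≤ s.val := fun t => h2 ▸
      Finset.single_le_sum (f := fun t => (L t : Multiset ι)) (fun _ _ => Multiset.zero_le _)
        (Finset.mem_univ t)
    have hmem : ∀ t, ∀ i ∈ L t, i ∈ s := fun t i hi =>
      Multiset.mem_of_le (hle t) (Multiset.mem_coe.mpr hi)
    have h3 := OC_sum Finset.univ (fun t => ((L t).map (fun i => EC (c i))).sum)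
      (fun t => (L t).length + 1) (fun t _ => absorb c (L t)
        (Multiset.coe_nodup.mp (Multiset.nodup_of_le (hle t) s.nodup))
        (fun i hi => hc i (hmem t i hi)) (fun i hi j hj => hd i (hmem t i hi) j (hmem t j hj)) (h1 t))
    have hcard : ∑ t, (L t).length = s.card := by
      have := congrArg Multiset.card h2
      rw [Multiset.card_sum] at this
      simpa using this
    have e1 : ∑ t : Fin 18, ((L t).length + 1) = s.card + 18 := by
      rw [Finset.sum_add_distrib, hcard]; simp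
    have e2 : ∑ t : Fin 18, ((L t).map (fun i => EC (c i))).sum = ∑ i ∈ s, EC (c i) := by
      rw [Finset.sum_eq_multiset_sum s, ← h2, mmap_sum, Multiset.sum_sum]
      simp
    rwa [e1, e2] at h3

lemma OC_of_Dec {G : Multiset (Sym2 V)} (hG : G.Nodup) {n : ℕ} (h : Dec G n) :
    OC G (n / 2 + 18) := by
  classical
  obtain ⟨k, o, hk, hv, hsum⟩ := h
  have hs := Finset.sum_filter_add_sum_filter_not Finset.univ (fun i => (o i).1 = true)
    (fun i => EE (o i))
  have hcard := Finset.card_filter_add_card_filter_not (s := Finset.univ)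
    (fun i => (o i).1 = true)
  have h1 := cycles (fun i => (o i).2) (Finset.univ.filter (fun i => (o i).1 = true))
    (fun i hi => ⟨(hv i).1, (hv i).2 (Finset.mem_filter.mp hi).2⟩) (by
      intro i hi j hj hij z hz hz'
      have hi := (Finset.mem_filter.mp hi).2
      have hj := (Finset.mem_filter.mp hj).2
      have hle : ∑ x ∈ ({i, j} : Finset (Fin k)), EE (o x) ≤ G := by
        rw [← hsum]
        exact Finset.sum_le_sum_of_subset (Finset.subset_univ _)
      rw [Finset.sum_pair hij] at hle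
      have := (Multiset.nodup_add.mp (Multiset.nodup_of_le hle hG)).2.2
      exact Multiset.disjoint_left.mp this (by simpa [EE, hi] using hz) (by simpa [EE, hj] using hz'))
  have h2 := OC_sum (Finset.univ.filter (fun i => ¬ (o i).1 = true)) (fun i => EE (o i))
    (fun _ => 1) (fun i hi => by
      have hi := (Finset.mem_filter.mp hi).2
      have : EE (o i) = E (o i).2 := by simp [EE, hi]
      rw [this]; exact OC_path (hv i).1)
  have e : ∑ i ∈ Finset.univ.filter (fun i => (o i).1 = true), EC (o i).2 =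
      ∑ i ∈ Finset.univ.filter (fun i => (o i).1 = true), EE (o i) :=
    Finset.sum_congr rfl fun i hi => by simp [EE, (Finset.mem_filter.mp hi).2]
  rw [e] at h1
  have := h1.add h2
  rw [hs, hsum] at this
  refine this.mono ?_
  simp only [Finset.sum_const, smul_eq_mul, mul_one, Finset.card_univ, Fintype.card_fin] at hcard ⊢
  omega

lemma dec_fin (n : ℕ) [NeZero n] (G : Multiset (Sym2 (Fin n))) (h1 : G.Nodup)
    (h2 : ∀ z ∈ G, ¬ z.IsDiag) : Dec G n := by
  have hinj : Function.Injective (Sym2.map (Fin.val : Fin n → ℕ)) :=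
    Sym2.map.injective Fin.val_injective
  have hsup : ∀ z ∈ G.map (Sym2.map Fin.val), ∀ v ∈ z, v ∈ Finset.range n := by
    intro z hz v hv
    obtain ⟨e, -, rfl⟩ := Multiset.mem_map.mp hz
    obtain ⟨a, -, rfl⟩ := Sym2.mem_map.mp hv
    simp
  obtain ⟨k, o, hk, hv, hsum⟩ := lovasz _ (G.map (Sym2.map Fin.val)) (Finset.range n) rfl
    ⟨h1.map hinj, by
      intro z hz
      obtain ⟨e, he, rfl⟩ := Multiset.mem_map.mp hz
      rw [Sym2.isDiag_map Fin.val_injective]; exact h2 e he, hsup⟩
  let f : ℕ → Fin n := Fin.ofNat n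
  have hf : ∀ a : Fin n, f a.val = a := fun a => by simp [f]
  refine ⟨k, fun i => ((o i).1, (o i).2.map f), by simpa using hk, ?_, ?_⟩
  · intro i
    refine ⟨?_, fun h => by simpa using (hv i).2 h⟩
    by_cases hl : 2 ≤ (o i).2.length
    · have hlt : ∀ v ∈ (o i).2, v < n := by
        intro v hv'
        obtain ⟨z, hz, hvz⟩ := mem_edge_of_mem hl hv'
        have hz' : z ∈ EE (o i) := by
          unfold EE; split_ifs
          · exact Multiset.mem_of_le (E_le_EC _) hz
          · exact hz
        have := hsup z (hsum ▸ Multiset.mem_of_le (le_sum (fun i => EE (o i)) i) hz') v hvz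
        simpa using this
      refine (hv i).1.map_on ?_
      intro x hx y hy hxy
      have := congrArg Fin.val hxy
      simp only [f, Fin.val_ofNat] at this
      rwa [Nat.mod_eq_of_lt (hlt x hx), Nat.mod_eq_of_lt (hlt y hy)] at this
    · have : ((o i).2.map f).length ≤ 1 := by simp; omega
      match h : (o i).2.map f, this with
      | [], _ => simp [h]
      | [a], _ => simp [h]
  · have : ∀ i, EE ((o i).1, (o i).2.map f) = (EE (o i)).map (Sym2.map f) := by
      intro i
      unfold EE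
      split_ifs
      · exact EC_map _ _
      · exact E_map _ _
    simp only [this]
    rw [← mmap_sum, hsum, Multiset.map_map]
    conv_rhs => rw [← Multiset.map_id G]
    refine Multiset.map_congr rfl fun z _ => ?_
    induction z using Sym2.ind with
    | _ a b => simp [hf]

omit [DecidableEq V] in
lemma walk_of_list (l : List V) : ∀ a, (a :: l).Nodup → ∃ v, ∃ W : (⊤ : SimpleGraph V).Walk a v,
    W.support = a :: l ∧ (W.edges : Multiset (Sym2 V)) = E (a :: l) := by
  induction l with
  | nil => intro a _; exact ⟨a, .nil, by simp, by simp⟩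
  | cons b l ih =>
    intro a h
    obtain ⟨v, W, h1, h2⟩ := ih b (List.nodup_cons.mp h).2
    have hab : a ≠ b := fun e => (List.nodup_cons.mp h).1 (by simp [e])
    refine ⟨v, .cons (show (⊤ : SimpleGraph V).Adj a b from hab) W, by simp [h1], ?_⟩
    rw [E_cons_cons, ← h2]; simp

theorem main (n : ℕ) (G : SimpleGraph (Fin n)) :
    ∃ (k : ℕ) (u v : Fin k → Fin n)
      (P : ∀ i : Fin k, (⊤ : SimpleGraph (Fin n)).Walk (u i) (v i)),
      k ≤ n / 2 + 18 ∧
      (∀ i : Fin k, (P i).IsPath) ∧
      ∀ a b : Fin n, a ≠ b →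
        (G.Adj a b ↔
          Odd ((Finset.univ.filter (fun i : Fin k => s(a, b) ∈ (P i).edges)).card)) := by
  classical
  rcases Nat.eq_zero_or_pos n with rfl | hn
  · exact ⟨0, Fin.elim0, Fin.elim0, fun i => i.elim0, by simp, by simp, fun a => a.elim0⟩
  have : NeZero n := ⟨hn.ne'⟩
  obtain ⟨Qs, h1, h2, h3⟩ := OC_of_Dec G.edgeFinset.nodup (dec_fin n G.edgeFinset.val
    G.edgeFinset.nodup (fun z hz => G.not_isDiag_of_mem_edgeSet (by simpa using hz)))
  have : ∀ i : Fin Qs.length, ∃ u v, ∃ W : (⊤ : SimpleGraph (Fin n)).Walk u v,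
      W.IsPath ∧ (W.edges : Multiset (Sym2 (Fin n))) = E Qs[i.1] := by
    intro i
    have hn := h2 Qs[i.1] (List.getElem_mem _)
    cases h : Qs[i.1] with
    | nil => exact ⟨0, 0, .nil, by simp, by simp⟩
    | cons a l =>
      rw [h] at hn
      obtain ⟨v, W, e1, e2⟩ := walk_of_list l a hn
      exact ⟨a, v, W, SimpleGraph.Walk.IsPath.mk' (e1 ▸ hn), e2⟩
  choose u v P hP hE using this
  refine ⟨Qs.length, u, v, P, h1, hP, fun a b _ => ?_⟩
  have e1 : (Finset.univ.filter (fun i => s(a, b) ∈ (P i).edges)).card =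
      ((Qs.map E).sum).count s(a, b) := by
    rw [← Fin.sum_univ_fun_getElem, Multiset.count_sum', Finset.card_filter]
    refine Finset.sum_congr rfl fun i _ => ?_
    rw [← hE i]
    split_ifs with h
    · exact (Multiset.count_eq_one_of_mem
        (Multiset.coe_nodup.mpr (hP i).isTrail.edges_nodup) (Multiset.mem_coe.mpr h)).symm
    · exact (Multiset.count_eq_zero.mpr (by simpa using h)).symm
  rw [e1, Nat.odd_iff, h3 s(a, b)]
  constructor
  · intro h
    rw [Multiset.count_eq_one_of_mem G.edgeFinset.nodup (by simpa using h)]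
  · intro h
    by_contra hc
    rw [Multiset.count_eq_zero.mpr (by simpa using hc)] at h
    simp at h

end Pool.Agent.H945Z.OC
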